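import Pool.Agent.Helper58_RL.PolSt

/-!
# PolC: polar coordinates of a generic point (helper1)
-/

noncomputable section

open scoped ContDiff Topology RealInnerProductSpace
set_option maxSynthPendingDepth 3
open Set

namespace Pool.Agent.RLim.H1

open Pool.Agent.RF Pool.Agent.RLim Pool.Agent.RLim.H58

theorem ang (a b : ℝ) (h : a ≠ 0 ∨ b ≠ 0) : ∃ t : ℝ, √(a ^ 2 + b ^ 2) * Real.cos t = a ∧
    √(a ^ 2 + b ^ 2) * Real.sin t = b := by
  have hz : (⟨a, b⟩ : ℂ) ≠ 0 := by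
    intro h0
    have h1 := congrArg Complex.re h0
    have h2 := congrArg Complex.im h0
    simp at h1 h2
    rcases h with h | h
    · exact h h1
    · exact h h2
  have hn : ‖(⟨a, b⟩ : ℂ)‖ = √(a ^ 2 + b ^ 2) := by
    rw [Complex.norm_eq_sqrt_sq_add_sq]
  have hp : 0 < ‖(⟨a, b⟩ : ℂ)‖ := norm_pos_iff.2 hz
  refine ⟨Complex.arg ⟨a, b⟩, ?_, ?_⟩
  · rw [Complex.cos_arg hz, ← hn]
    field_simp
  · rw [Complex.sin_arg, ← hn]
    field_simp

theorem polC : PolCStmt := by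
  intro X h01 h23
  have p1 : 0 < X 0 ^ 2 + X 1 ^ 2 := by
    rcases h01 with h | h
    · have := sq_nonneg (X 1); positivity
    · have := sq_nonneg (X 0); positivity
  have p2 : 0 < X 2 ^ 2 + X 3 ^ 2 := by
    rcases h23 with h | h
    · have := sq_nonneg (X 3); positivity
    · have := sq_nonneg (X 2); positivity
  have hR2 : ‖X‖ ^ 2 = (X 0 ^ 2 + X 1 ^ 2) + (X 2 ^ 2 + X 3 ^ 2) := by
    rw [EuclideanSpace.norm_sq_eq, Fin.sum_univ_four]
    simp only [Real.norm_eq_abs, sq_abs]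
    ring
  have hR : 0 < ‖X‖ := by
    by_contra h
    have : ‖X‖ = 0 := le_antisymm (not_lt.1 h) (norm_nonneg _)
    rw [this] at hR2
    nlinarith
  obtain ⟨t, ht1, ht2⟩ := ang (X 0) (X 1) h01
  obtain ⟨u, hu1, hu2⟩ := ang (X 2) (X 3) h23
  set a := √(X 0 ^ 2 + X 1 ^ 2) with ha
  set b := √(X 2 ^ 2 + X 3 ^ 2) with hb
  have ha0 : 0 < a := Real.sqrt_pos.2 p1
  have hb0 : 0 < b := Real.sqrt_pos.2 p2
  have ha2 : a ^ 2 = X 0 ^ 2 + X 1 ^ 2 := Real.sq_sqrt p1.le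
  have hb2 : b ^ 2 = X 2 ^ 2 + X 3 ^ 2 := Real.sq_sqrt p2.le
  have hab : a ^ 2 + b ^ 2 = ‖X‖ ^ 2 := by rw [ha2, hb2, hR2]
  have haR : a / ‖X‖ < 1 := by
    rw [div_lt_one hR]
    nlinarith
  have haR0 : 0 < a / ‖X‖ := by positivity
  set s := Real.arccos (a / ‖X‖) with hs
  have hcos : Real.cos s = a / ‖X‖ := Real.cos_arccos (by linarith) haR.le
  have hsin : Real.sin s = b / ‖X‖ := by
    have h1 : 1 - (a / ‖X‖) ^ 2 = (b / ‖X‖) ^ 2 := by
      field_simp
      linarith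
    rw [hs, Real.sin_arccos, h1, Real.sqrt_sq (by positivity)]
  have hs0 : 0 < s := Real.arccos_pos.2 haR
  have hs1 : s < Real.pi / 2 := Real.arccos_lt_pi_div_two.2 haR0
  have hex : Real.exp (Real.log ‖X‖) = ‖X‖ := Real.exp_log hR
  refine ⟨WithLp.toLp 2 ![Real.log ‖X‖, s, t, u], ?_, ?_, ?_, ?_, ?_, ?_, ?_⟩
  · ext i
    fin_cases i
    · simp [psi, hex, hcos]
      rw [← ht1]; field_simp
    · simp [psi, hex, hcos]
      rw [← ht2]; field_simp
    · simp [psi, hex, hsin]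
      rw [← hu1]; field_simp
    · simp [psi, hex, hsin]
      rw [← hu2]; field_simp
  · simp [hex]
  · simpa using hs0
  · simpa using hs1
  · simp [hsin]; field_simp
  · simp [hcos]; field_simp
  · intro V
    have c1 : Real.cos s ≠ 0 := by rw [hcos]; exact haR0.ne'
    have s1 : Real.sin s ≠ 0 := by rw [hsin]; positivity
    have q1 := Real.sin_sq_add_cos_sq s
    have q2 := Real.sin_sq_add_cos_sq t
    have q3 := Real.sin_sq_add_cos_sq u
    set c := Real.cos s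
    set d := Real.sin s
    set c2 := Real.cos t
    set d2 := Real.sin t
    set c3 := Real.cos u
    set d3 := Real.sin u
    refine ⟨WithLp.toLp 2 ![‖X‖⁻¹ * (c * c2 * V 0 + c * d2 * V 1 + d * c3 * V 2 + d * d3 * V 3),
      ‖X‖⁻¹ * (-d * c2 * V 0 - d * d2 * V 1 + c * c3 * V 2 + c * d3 * V 3),
      ‖X‖⁻¹ * ((-d2 * V 0 + c2 * V 1) / c), ‖X‖⁻¹ * ((-d3 * V 2 + c3 * V 3) / d)], ?_⟩
    have hn := hR.ne'
    ext i
    fin_cases i
    · simp [dpsi, hex]
      field_simp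
      linear_combination c * ((c2 ^ 2 * V 0 + c2 * d2 * V 1) * q1 + V 0 * q2)
    · simp [dpsi, hex]
      field_simp
      linear_combination c * ((c2 * d2 * V 0 + d2 ^ 2 * V 1) * q1 + V 1 * q2)
    · simp [dpsi, hex]
      field_simp
      linear_combination d * ((c3 ^ 2 * V 2 + c3 * d3 * V 3) * q1 + V 2 * q3)
    · simp [dpsi, hex]
      field_simp
      linear_combination d * ((c3 * d3 * V 2 + d3 ^ 2 * V 3) * q1 + V 3 * q3)

end Pool.Agent.RLim.H1
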