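import Pool.Agent.Helper1_RLA.Dgr

/-!
# BGG: the Ricci tensor of the background metric at generic points (helper1)
-/

noncomputable section

open scoped ContDiff Topology ENNReal RealInnerProductSpace
set_option maxSynthPendingDepth 3
open Set Metric

namespace Pool.Agent.RLim.H1

open Pool.Agent.RLim Pool.Agent.RF
open Pool.Agent.SecondKind (mat eqE ricci ricci_mat Coord christoffel curv pd inv eqE_apply)
open Pool.Agent.RLim.H58 (dg Two)

/-! ### the profile function -/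

def sd (δ ρ : ℝ) : ℝ := √(ρ ^ 2 + δ ^ 2)

theorem sd_pos {δ : ℝ} (hδ : 0 < δ) (ρ : ℝ) : 0 < sd δ ρ := Real.sqrt_pos.2 (by positivity)

theorem sd_sq {δ : ℝ} (hδ : 0 < δ) (ρ : ℝ) : sd δ ρ ^ 2 = ρ ^ 2 + δ ^ 2 :=
  Real.sq_sqrt (by positivity)

theorem sd_deriv {δ : ℝ} (hδ : 0 < δ) (ρ : ℝ) : HasDerivAt (sd δ) (ρ / sd δ ρ) ρ := by
  have h1 : HasDerivAt (fun x : ℝ => x ^ 2 + δ ^ 2) (2 * ρ) ρ := by
    simpa using (hasDerivAt_pow 2 ρ).add_const (δ ^ 2)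
  have h2 := h1.sqrt (by positivity : ρ ^ 2 + δ ^ 2 ≠ 0)
  have h3 : HasDerivAt (sd δ) (2 * ρ / (2 * sd δ ρ)) ρ := h2
  rw [mul_div_mul_left _ _ (two_ne_zero)] at h3
  exact h3

/-- `φ(ρ) = ρ B̂` -/
def ph (r δ ρ : ℝ) : ℝ := r * ρ + (1 - r) * δ * (ρ / sd δ ρ)
def ph1 (r δ ρ : ℝ) : ℝ := r + (1 - r) * δ ^ 3 * (sd δ ρ ^ 3)⁻¹
def ph2 (r δ ρ : ℝ) : ℝ := -(3 * (1 - r) * δ ^ 3 * ρ * (sd δ ρ ^ 5)⁻¹)

theorem ph_deriv {r δ : ℝ} (hδ : 0 < δ) (ρ : ℝ) : HasDerivAt (ph r δ) (ph1 r δ ρ) ρ := by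
  have h0 := (sd_pos hδ ρ).ne'
  have h1 : HasDerivAt (fun x => x / sd δ x) ((1 * sd δ ρ - ρ * (ρ / sd δ ρ)) / sd δ ρ ^ 2) ρ :=
    (hasDerivAt_id' ρ).div (sd_deriv hδ ρ) h0
  have h2 := ((hasDerivAt_id' ρ).const_mul r).add (h1.const_mul ((1 - r) * δ))
  refine h2.congr_deriv ?_
  unfold ph1
  have h3 := sd_sq hδ ρ
  field_simp
  linear_combination ((1 - r) * δ) * h3

theorem ph1_deriv {r δ : ℝ} (hδ : 0 < δ) (ρ : ℝ) : HasDerivAt (ph1 r δ) (ph2 r δ ρ) ρ := by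
  have h0 := (sd_pos hδ ρ).ne'
  have h1 := (((sd_deriv hδ ρ).pow 3).inv (pow_ne_zero 3 h0)).const_mul ((1 - r) * δ ^ 3)
  have h2 := h1.const_add r
  refine h2.congr_deriv ?_
  unfold ph2
  simp only [Pi.pow_apply]
  field_simp
  ring

theorem ph_pos {r δ ρ : ℝ} (hr : 0 < r) (hr1 : r < 1) (hδ : 0 < δ) (hρ : 0 < ρ) :
    0 < ph r δ ρ := by
  have := sd_pos hδ ρ
  have h1 : 0 < 1 - r := by linarith
  unfold ph
  positivity

theorem sd_smooth {δ : ℝ} (hδ : 0 < δ) : ContDiff ℝ ∞ (sd δ) := by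
  unfold sd
  apply ContDiff.sqrt
  · fun_prop
  · intro x
    positivity

theorem ph_smooth {r δ : ℝ} (hδ : 0 < δ) : ContDiff ℝ ∞ (ph r δ) := by
  unfold ph
  have := sd_smooth hδ
  exact (contDiff_const.mul contDiff_id).add
    (contDiff_const.mul (contDiff_id.div this fun x => (sd_pos hδ x).ne'))

/-! ### functions of the first coordinate -/

theorem pd0_comp {f : ℝ → ℝ} {f' : ℝ} {y : Fin 4 → ℝ} (h : HasDerivAt f f' (y 0)) (k : Fin 4) :
    pd k (fun z => f (z 0)) y = if k = 0 then f' else 0 := by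
  have h1 : HasFDerivAt (fun z : Fin 4 → ℝ => z 0)
      (ContinuousLinearMap.proj (R := ℝ) (φ := fun _ : Fin 4 => ℝ) 0) y :=
    (ContinuousLinearMap.proj (R := ℝ) (φ := fun _ : Fin 4 => ℝ) 0).hasFDerivAt
  have h2 := h.comp_hasFDerivAt y h1
  unfold pd
  change fderiv ℝ (f ∘ fun z : Fin 4 → ℝ => z 0) y _ = _
  rw [h2.fderiv]
  fin_cases k <;> simp

/-- the exponents -/
def wb (r δ : ℝ) (i : Fin 4) (y : Fin 4 → ℝ) : ℝ := if i = 3 then Real.log (ph r δ (y 0)) else 0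

def Ub : Set E4 := {y | 0 < y 0}

theorem Ub_open : IsOpen Ub := isOpen_lt continuous_const (by fun_prop)

theorem wb_two {r δ : ℝ} (hr : 0 < r) (hr1 : r < 1) (hδ : 0 < δ) :
    Two (wb r δ) ((eqE 4).symm ⁻¹' Ub) := by
  have hU : IsOpen ((eqE 4).symm ⁻¹' Ub) := Ub_open.preimage (eqE 4).symm.continuous
  have hmem : ∀ z ∈ ((eqE 4).symm ⁻¹' Ub : Set (Fin 4 → ℝ)), 0 < z 0 := fun z hz => hz
  have hpd : ∀ (k : Fin 4), k ≠ 0 → ∀ i, ∀ z ∈ ((eqE 4).symm ⁻¹' Ub : Set (Fin 4 → ℝ)),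
      pd k (wb r δ i) z = 0 := by
    intro k hk i z hz
    by_cases hi : i = 3
    · have h1 : wb r δ i = fun z => (fun ρ => Real.log (ph r δ ρ)) (z 0) := by
        funext z; simp [wb, hi]
      have h2 : HasDerivAt (fun ρ => Real.log (ph r δ ρ)) (ph1 r δ (z 0) / ph r δ (z 0)) (z 0) :=
        (ph_deriv hδ (z 0)).log (ph_pos hr hr1 hδ (hmem z hz)).ne'
      rw [h1, pd0_comp h2]
      simp [hk]
    · have h1 : wb r δ i = fun _ => 0 := by
        funext z; simp [wb, hi]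
      rw [h1, H58.pd_const]
  refine ⟨hU, ?_, fun i z hz => hpd 2 (by decide) i z hz, fun i z hz => hpd 3 (by decide) i z hz⟩
  intro i
  by_cases hi : i = 3
  · have h1 : wb r δ i = fun z => Real.log (ph r δ (z 0)) := by
      funext z; simp [wb, hi]
    rw [h1]
    apply ContDiffOn.log
    · apply ContDiff.contDiffOn
      exact (ph_smooth hδ).comp (by fun_prop)
    · intro z hz
      exact (ph_pos hr hr1 hδ (hmem z hz)).ne'
  · have h1 : wb r δ i = fun _ => 0 := by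
      funext z; simp [wb, hi]
    rw [h1]
    exact contDiffOn_const

/-! ### the parametrization -/

def psb (y : E4) : E4 := WithLp.toLp 2 ![y 1, y 2, y 0 * Real.cos (y 3), y 0 * Real.sin (y 3)]

theorem psb_smooth : ContDiff ℝ ∞ psb := by
  rw [contDiff_euclidean]
  intro i
  fin_cases i <;> simp [psb] <;> fun_prop

theorem fderiv_psb (y V : E4) : fderiv ℝ psb y V = WithLp.toLp 2 ![V 1, V 2,
    V 0 * Real.cos (y 3) - y 0 * Real.sin (y 3) * V 3,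
    V 0 * Real.sin (y 3) + y 0 * Real.cos (y 3) * V 3] := by
  have hd : DifferentiableAt ℝ psb y := (psb_smooth.differentiable (by simp)) y
  have hp : ∀ i : Fin 4, HasFDerivAt (fun z : E4 => z i) (EuclideanSpace.proj i : E4 →L[ℝ] ℝ) y :=
    fun i => (EuclideanSpace.proj i : E4 →L[ℝ] ℝ).hasFDerivAt
  have hc : ∀ i : Fin 4, (fderiv ℝ psb y V) i = fderiv ℝ (fun z => psb z i) y V := by
    intro i
    have h1 := ((EuclideanSpace.proj i : E4 →L[ℝ] ℝ).hasFDerivAt (x := psb y)).comp y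
      hd.hasFDerivAt
    have h2 : fderiv ℝ (fun z => psb z i) y = _ := h1.fderiv
    rw [h2]
    rfl
  have e0 : HasFDerivAt (fun z => psb z 0) (EuclideanSpace.proj 1 : E4 →L[ℝ] ℝ) y := hp 1
  have e1 : HasFDerivAt (fun z => psb z 1) (EuclideanSpace.proj 2 : E4 →L[ℝ] ℝ) y := hp 2
  have e2 : HasFDerivAt (fun z => psb z 2) _ y := (hp 0).mul (hp 3).cos
  have e3 : HasFDerivAt (fun z => psb z 3) _ y := (hp 0).mul (hp 3).sin
  ext i
  rw [hc]
  fin_cases i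
  · change fderiv ℝ (fun z => psb z 0) y V = _
    rw [e0.fderiv]; rfl
  · change fderiv ℝ (fun z => psb z 1) y V = _
    rw [e1.fderiv]; rfl
  · change fderiv ℝ (fun z => psb z 2) y V = _
    rw [e2.fderiv]
    simp
    ring
  · change fderiv ℝ (fun z => psb z 3) y V = _
    rw [e3.fderiv]
    simp
    ring

theorem inv_of_inj (L : E4 →L[ℝ] E4) (h : ∀ v, L v = 0 → v = 0) : L.IsInvertible := by
  have hinj : Function.Injective (L : E4 →ₗ[ℝ] E4) := by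
    rw [injective_iff_map_eq_zero]
    exact h
  refine ⟨(LinearEquiv.ofInjectiveEndo (L : E4 →ₗ[ℝ] E4) hinj).toContinuousLinearEquiv, ?_⟩
  ext v
  rfl

theorem fderiv_psb_inv {y : E4} (hy : y ∈ Ub) : (fderiv ℝ psb y).IsInvertible := by
  apply inv_of_inj
  intro V hV
  rw [fderiv_psb] at hV
  have hy0 : 0 < y 0 := hy
  have h0 := congrArg (fun z : E4 => z 0) hV
  have h1 := congrArg (fun z : E4 => z 1) hV
  have h2 := congrArg (fun z : E4 => z 2) hV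
  have h3 := congrArg (fun z : E4 => z 3) hV
  simp at h0 h1 h2 h3
  have q := Real.sin_sq_add_cos_sq (y 3)
  have v0 : V 0 = 0 := by
    linear_combination Real.cos (y 3) * h2 + Real.sin (y 3) * h3 - V 0 * q
  have v3 : y 0 * V 3 = 0 := by
    linear_combination -Real.sin (y 3) * h2 + Real.cos (y 3) * h3 - y 0 * V 3 * q
  have v3' : V 3 = 0 := by
    rcases mul_eq_zero.1 v3 with h | h
    · exact absurd h hy0.ne'
    · exact h
  ext i
  fin_cases i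
  · exact v0
  · exact h0
  · exact h1
  · exact v3'

theorem bg_eq (r δ : ℝ) (X V W : E4) : bg r δ X V W = ⟪V, W⟫ +
    (bgP r).HH δ X * (⟪YY X, V⟫ * ⟪YY X, W⟫) := by
  unfold bg Prof.neck
  rw [gen_apply]
  have : (bgP r).lapse δ X = 1 := by simp [Prof.lapse, bgP]
  rw [this]
  simp [bgP]

theorem pullb_psb {r δ : ℝ} (hδ : 0 < δ) {y : E4} (hy : y ∈ Ub)
    (V W : E4) : pullb (bg r δ) psb y V W = V 0 * W 0 + V 1 * W 1 + V 2 * W 2
      + ph r δ (y 0) ^ 2 * (V 3 * W 3) := by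
  have hy0 : 0 < y 0 := hy
  rw [pullb_apply, bg_eq, fderiv_psb, fderiv_psb]
  have q := Real.sin_sq_add_cos_sq (y 3)
  have hrd : Prof.rdl δ (psb y) = sd δ (y 0) := by
    unfold Prof.rdl sd
    congr 1
    simp [psb]
    linear_combination (y 0) ^ 2 * q
  have hB : (bgP r).Bh δ (psb y) = δ / sd δ (y 0) + r * (1 - δ / sd δ (y 0)) := by
    unfold Prof.Bh
    rw [hrd]
    simp [bgP]
  have hH : (bgP r).HH δ (psb y) = -(δ / sd δ (y 0) + r * (1 - δ / sd δ (y 0)) + 1) *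
      ((1 - r) / sd δ (y 0)) / (sd δ (y 0) + δ) := by
    unfold Prof.HH
    rw [hB, hrd]
    simp [bgP]
  have hs := sd_pos hδ (y 0)
  have hs2 := sd_sq hδ (y 0)
  have key : (y 0) ^ 2 + (bgP r).HH δ (psb y) * (y 0) ^ 4 = ph r δ (y 0) ^ 2 := by
    rw [hH]
    unfold ph
    have h1 : (y 0) ^ 2 = (sd δ (y 0) - δ) * (sd δ (y 0) + δ) := by linear_combination -hs2
    have h2 : sd δ (y 0) + δ ≠ 0 := by positivity
    have h3 : (y 0) ^ 4 = (y 0) ^ 2 * ((sd δ (y 0) - δ) * (sd δ (y 0) + δ)) := by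
      rw [← h1]; ring
    rw [h3]
    field_simp
    ring
  have hY : ∀ Z : E4, ⟪YY (psb y), (WithLp.toLp 2 ![Z 1, Z 2,
      Z 0 * Real.cos (y 3) - y 0 * Real.sin (y 3) * Z 3,
      Z 0 * Real.sin (y 3) + y 0 * Real.cos (y 3) * Z 3] : E4)⟫ = (y 0) ^ 2 * Z 3 := by
    intro Z
    rw [PiLp.inner_apply, Fin.sum_univ_four]
    simp [YY, psb]
    linear_combination (y 0) ^ 2 * Z 3 * q
  rw [hY, hY, PiLp.inner_apply, Fin.sum_univ_four]
  simp
  linear_combination (V 0 * W 0 + (y 0) ^ 2 * V 3 * W 3) * q + V 3 * W 3 * key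

theorem bgg (hm : BgMetricStmt) : BgGenStmt := by
  intro r δ hr hr1 hδ X _ h23 V
  have hM := (hm r δ hr hr1 hδ).1
  have hD : DiffeoStatement := H5.diffeo chrStatement (H5.nat chrStatement)
  obtain ⟨hG, _, hric⟩ := hD (Fin 4) (Fin 4) (bg r δ) psb Ub univ hM Ub_open
    psb_smooth.contDiffOn (fun _ _ => mem_univ _) (fun y hy => fderiv_psb_inv hy)
  -- polar coordinates
  obtain ⟨θ, hθ1, hθ2⟩ : ∃ t : ℝ, √(X 2 ^ 2 + X 3 ^ 2) * Real.cos t = X 2 ∧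
      √(X 2 ^ 2 + X 3 ^ 2) * Real.sin t = X 3 := by
    have hz : (⟨X 2, X 3⟩ : ℂ) ≠ 0 := by
      intro h0
      have h1 := congrArg Complex.re h0
      have h2 := congrArg Complex.im h0
      simp at h1 h2
      rcases h23 with h | h
      · exact h h1
      · exact h h2
    have hn : ‖(⟨X 2, X 3⟩ : ℂ)‖ = √(X 2 ^ 2 + X 3 ^ 2) := by
      rw [Complex.norm_eq_sqrt_sq_add_sq]
    have hp : 0 < ‖(⟨X 2, X 3⟩ : ℂ)‖ := norm_pos_iff.2 hz
    refine ⟨Complex.arg ⟨X 2, X 3⟩, ?_, ?_⟩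
    · rw [Complex.cos_arg hz, ← hn]
      field_simp
    · rw [Complex.sin_arg, ← hn]
      field_simp
  have hρ : 0 < √(X 2 ^ 2 + X 3 ^ 2) := by
    apply Real.sqrt_pos.2
    rcases h23 with h | h
    · have := sq_nonneg (X 3); positivity
    · have := sq_nonneg (X 2); positivity
  set y : E4 := WithLp.toLp 2 ![√(X 2 ^ 2 + X 3 ^ 2), X 0, X 1, θ] with hy
  have hyU : y ∈ Ub := by
    show 0 < y 0
    simpa [hy] using hρ
  have hψ : psb y = X := by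
    ext i
    fin_cases i
    · simp [psb, hy]
    · simp [psb, hy]
    · simp [psb, hy, hθ1]
    · simp [psb, hy, hθ2]
  obtain ⟨A, hA⟩ := fderiv_psb_inv hyU
  have hV : fderiv ℝ psb y (A.symm V) = V := by
    rw [← hA]
    simp
  rw [← hψ, ← hV, ← hric y hyU]
  rw [ric_dg hG (wb_two hr hr1 hδ) ?_ hyU]
  swap
  · intro x hx i j
    rw [pullb_psb hδ hx]
    have hx0 : 0 < x 0 := hx
    have hpp := ph_pos hr hr1 hδ hx0
    have h2 : Real.exp (2 * Real.log (ph r δ (x 0))) = ph r δ (x 0) ^ 2 := by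
      rw [two_mul, Real.exp_add, Real.exp_log hpp]; ring
    unfold dg wb
    fin_cases i <;> fin_cases j <;> simp [eb, h2]
  have hz : eqE 4 y ∈ ((eqE 4).symm ⁻¹' Ub : Set (Fin 4 → ℝ)) := hyU
  have hp : ∀ z ∈ ((eqE 4).symm ⁻¹' Ub : Set (Fin 4 → ℝ)), 0 < z 0 := fun z hz => hz
  have w3 : wb r δ 3 = fun z => (fun ρ => Real.log (ph r δ ρ)) (z 0) := by
    funext z; simp [wb]
  have w0 : ∀ i : Fin 4, i ≠ 3 → wb r δ i = fun _ => 0 := by
    intro i hi; funext z; simp [wb, hi]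
  have d1 : ∀ z ∈ ((eqE 4).symm ⁻¹' Ub : Set (Fin 4 → ℝ)), ∀ k, pd k (wb r δ 3) z =
      if k = 0 then ph1 r δ (z 0) / ph r δ (z 0) else 0 := by
    intro z hz k
    rw [w3, pd0_comp ((ph_deriv hδ (z 0)).log (ph_pos hr hr1 hδ (hp z hz)).ne')]
  have c0 : ∀ i : Fin 4, i ≠ 3 → ∀ k z, pd k (wb r δ i) z = 0 := by
    intro i hi k z
    rw [w0 i hi, H58.pd_const]
  have c0' : ∀ i : Fin 4, i ≠ 3 → ∀ l k z, pd l (pd k (wb r δ i)) z = 0 := by
    intro i hi l k z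
    have : pd k (wb r δ i) = fun _ => 0 := funext fun z => c0 i hi k z
    rw [this, H58.pd_const]
  have hopen := (wb_two hr hr1 hδ).isOpen
  have d2 : ∀ z ∈ ((eqE 4).symm ⁻¹' Ub : Set (Fin 4 → ℝ)), ∀ l k, pd l (pd k (wb r δ 3)) z =
      if k = 0 then if l = 0 then (ph2 r δ (z 0) * ph r δ (z 0) - ph1 r δ (z 0) * ph1 r δ (z 0))
        / ph r δ (z 0) ^ 2 else 0 else 0 := by
    intro z hz l k
    by_cases hk : k = 0
    · have h1 : pd k (wb r δ 3) =ᶠ[𝓝 z] fun z => (fun ρ => ph1 r δ ρ / ph r δ ρ) (z 0) := by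
        filter_upwards [hopen.mem_nhds hz] with u hu
        rw [d1 u hu, if_pos hk]
      have h2 := pd0_comp (f := fun ρ => ph1 r δ ρ / ph r δ ρ) ((ph1_deriv hδ (z 0)).div
        (ph_deriv hδ (z 0)) (ph_pos hr hr1 hδ (hp z hz)).ne') l
      rw [H58.pd_congr' l h1, h2]
      simp [hk]
    · have h1 : pd k (wb r δ 3) =ᶠ[𝓝 z] fun _ => 0 := by
        filter_upwards [hopen.mem_nhds hz] with u hu
        rw [d1 u hu, if_neg hk]
      rw [H58.pd_congr' l h1, H58.pd_const]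
      simp [hk]
  have hT := wb_two hr hr1 hδ
  rw [H58.ricci00 hT hz, H58.ricci01 hT hz, H58.ricci11 hT hz, H58.ricci22 hT hz,
    H58.ricci33 hT hz]
  simp only [d1 _ hz, d2 _ hz, c0 0 (by decide), c0 1 (by decide), c0 2 (by decide),
    c0' 0 (by decide), c0' 1 (by decide), c0' 2 (by decide)]
  have hy0 : 0 < (eqE 4 y) 0 := hyU
  have hpp := ph_pos hr hr1 hδ hy0
  have hs := sd_pos hδ ((eqE 4 y) 0)
  have h2 : ph2 r δ ((eqE 4 y) 0) ≤ 0 := by
    have : 0 < 1 - r := by linarith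
    unfold ph2
    rw [neg_nonpos]
    positivity
  set E3 := Real.exp (2 * (wb r δ 3 (eqE 4 y) - wb r δ 0 (eqE 4 y))) with hE3
  have hE : 0 < E3 := Real.exp_pos _
  have hkey : (ph2 r δ ((eqE 4 y) 0) * ph r δ ((eqE 4 y) 0) - ph1 r δ ((eqE 4 y) 0) *
      ph1 r δ ((eqE 4 y) 0)) / ph r δ ((eqE 4 y) 0) ^ 2 + (ph1 r δ ((eqE 4 y) 0) /
      ph r δ ((eqE 4 y) 0)) ^ 2 = ph2 r δ ((eqE 4 y) 0) / ph r δ ((eqE 4 y) 0) := by
    field_simp
    ring
  have hq : ph2 r δ ((eqE 4 y) 0) / ph r δ ((eqE 4 y) 0) ≤ 0 :=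
    div_nonpos_of_nonpos_of_nonneg h2 hpp.le
  simp only [if_true, Fin.reduceEq, if_false, one_ne_zero]
  set v := A.symm V
  set Q := ph2 r δ ((eqE 4 y) 0) / ph r δ ((eqE 4 y) 0)
  have g1 : 0 ≤ -Q * v 0 ^ 2 := mul_nonneg (by linarith) (sq_nonneg _)
  have g2 : 0 ≤ E3 * (-Q) * v 3 ^ 2 := by
    have : 0 ≤ -Q := by linarith
    positivity
  refine le_of_le_of_eq (add_nonneg g1 g2) ?_
  have hkey' : Q = _ := hkey.symm
  rw [hkey']
  ring

end Pool.Agent.RLim.H1
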