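import Pool.Agent.Helper1_RL.Stmts
import Pool.Agent.Helper58_RL.Diag
import Pool.Agent.Helper36_RF.ClBr
import Pool.Agent.Helper5_RF.Diffeo

/-!
# Ricci tensor of fields of bilinear forms which are diagonal in coordinates (helper1)
-/

noncomputable section

open scoped ContDiff Topology ENNReal RealInnerProductSpace
set_option maxSynthPendingDepth 3
open Set Metric

namespace Pool.Agent.RLim.H1

open Pool.Agent.RLim Pool.Agent.RF
open Pool.Agent.SecondKind (mat eqE ricci ricci_mat Coord christoffel curv pd inv)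

theorem ric_sum {G : E4 → Bil E4} {U : Set E4} (hG : IsMetricOn G U) {q : E4} (hq : q ∈ U)
    (V : E4) : ric G q V V = ∑ i, ∑ j, ric G q (eb i) (eb j) * V i * V j := by
  have h1 : ∀ k : Fin 4, riem G q (eb k) V V =
      ∑ i, V i • ∑ j, V j • riem G q (eb k) (eb i) (eb j) := by
    intro k
    conv_lhs => rw [H9.sum_eb V]
    rw [H58.riem_sum2 hG hq]
    refine Finset.sum_congr rfl fun i _ => ?_
    rw [H58.riem_sum3 hG hq]
  unfold ric
  have h2 : ∀ k : Fin 4, (riem G q (eb k) V V) k =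
      ∑ i, ∑ j, (riem G q (eb k) (eb i) (eb j)) k * V i * V j := by
    intro k
    rw [h1]
    simp only [WithLp.ofLp_sum, WithLp.ofLp_smul, Finset.sum_apply, Pi.smul_apply, smul_eq_mul]
    refine Finset.sum_congr rfl fun i _ => ?_
    rw [Finset.mul_sum]
    refine Finset.sum_congr rfl fun j _ => ?_
    ring
  simp only [h2]
  rw [Finset.sum_comm]
  refine Finset.sum_congr rfl fun i _ => ?_
  rw [Finset.sum_comm]
  refine Finset.sum_congr rfl fun j _ => ?_
  rw [Finset.sum_mul, Finset.sum_mul]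

variable {n : ℕ}

theorem pd_congr'' {f g : (Fin n → ℝ) → ℝ} (k : Fin n) {y : Fin n → ℝ} (h : f =ᶠ[𝓝 y] g) :
    pd k f =ᶠ[𝓝 y] pd k g := by
  have : ∀ᶠ z in 𝓝 y, f =ᶠ[𝓝 z] g := h.eventually_nhds
  filter_upwards [this] with z hz
  exact H58.pd_congr' k hz

theorem christoffel_congr {h h' : Coord n} {y : Fin n → ℝ} (he : h =ᶠ[𝓝 y] h') (k i j : Fin n) :
    christoffel h k i j =ᶠ[𝓝 y] christoffel h' k i j := by
  have h1 : ∀ a b c : Fin n, pd a (fun z => h z b c) =ᶠ[𝓝 y] pd a (fun z => h' z b c) := by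
    intro a b c
    apply pd_congr''
    filter_upwards [he] with z hz
    rw [hz]
  have h2 : ∀ᶠ z in 𝓝 y, ∀ a b c : Fin n, pd a (fun z => h z b c) z = pd a (fun z => h' z b c) z := by
    rw [Filter.eventually_all]
    intro a
    rw [Filter.eventually_all]
    intro b
    rw [Filter.eventually_all]
    intro c
    exact h1 a b c
  filter_upwards [he, h2] with z hz hz2
  unfold christoffel
  refine Finset.sum_congr rfl fun l _ => ?_
  rw [hz2, hz2, hz2]
  have : inv h k l z = inv h' k l z := by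
    unfold inv
    rw [hz]
  rw [this]

theorem ricci_congr {h h' : Coord n} {y : Fin n → ℝ} (he : h =ᶠ[𝓝 y] h') (i j : Fin n) :
    ricci h i j y = ricci h' i j y := by
  unfold ricci
  refine Finset.sum_congr rfl fun k _ => ?_
  unfold curv
  have h1 : ∀ a b c : Fin n, christoffel h a b c y = christoffel h' a b c y :=
    fun a b c => (christoffel_congr he a b c).eq_of_nhds
  have h2 : ∀ l a b c : Fin n, pd l (christoffel h a b c) y = pd l (christoffel h' a b c) y :=
    fun l a b c => H58.pd_congr' l (christoffel_congr he a b c)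
  simp only [h1, h2]

open Pool.Agent.RLim.H58 (dg Two)

/-- the Ricci tensor of a metric with diagonal matrix `exp (2 w i)` -/
theorem ric_dg {G : E4 → Bil E4} {U : Set E4} (hG : IsMetricOn G U)
    {w : Fin 4 → (Fin 4 → ℝ) → ℝ} (hw : Two w ((eqE 4).symm ⁻¹' U))
    (he : ∀ x ∈ U, ∀ i j, G x (eb i) (eb j) = dg w (eqE 4 x) i j) {x : E4} (hx : x ∈ U)
    (V : E4) : ric G x V V = ricci (dg w) 0 0 (eqE 4 x) * V 0 ^ 2
      + 2 * ricci (dg w) 0 1 (eqE 4 x) * V 0 * V 1 + ricci (dg w) 1 1 (eqE 4 x) * V 1 ^ 2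
      + ricci (dg w) 2 2 (eqE 4 x) * V 2 ^ 2 + ricci (dg w) 3 3 (eqE 4 x) * V 3 ^ 2 := by
  have hev : (mat G : Coord 4) =ᶠ[𝓝 (eqE 4 x)] dg w := by
    have : (eqE 4).symm ⁻¹' U ∈ 𝓝 (eqE 4 x) := by
      apply hw.isOpen.mem_nhds
      show (eqE 4).symm (eqE 4 x) ∈ U
      rw [ContinuousLinearEquiv.symm_apply_apply]
      exact hx
    filter_upwards [this] with z hz
    funext i j
    have := he _ hz i j
    rw [ContinuousLinearEquiv.apply_symm_apply] at this
    exact this
  have hR : ∀ i j, ric G x (eb i) (eb j) = ricci (dg w) i j (eqE 4 x) := by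
    intro i j
    rw [← ricci_mat hG hx, ricci_congr hev]
  have hy : eqE 4 x ∈ (eqE 4).symm ⁻¹' U := by
    show (eqE 4).symm (eqE 4 x) ∈ U
    rw [ContinuousLinearEquiv.symm_apply_apply]
    exact hx
  rw [ric_sum hG hx]
  simp only [hR, Fin.sum_univ_four]
  rw [H58.ricci02 hw hy, H58.ricci03 hw hy, H58.ricci12 hw hy, H58.ricci13 hw hy,
    H58.ricci23 hw hy, H58.ricci20 hw hy, H58.ricci30 hw hy, H58.ricci21 hw hy,
    H58.ricci31 hw hy, H58.ricci32 hw hy, H58.ricci10 hw hy]
  ring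

end Pool.Agent.RLim.H1
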